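import Pool.Agent.H717.PM.Stm

/-!
# Small integer points with prescribed signs
-/

set_option autoImplicit false

namespace Pool.Agent.H268.PM

open Pool.Agent.H717.PM Matrix

/-- a polyhedron without lines has a vertex -/
theorem vertex_aux {ι : Type} [Fintype ι] (G : Finset (ι → ℝ)) (b : (ι → ℝ) → ℝ)
    (hG : ∀ v : ι → ℝ, v ≠ 0 → ∃ g ∈ G, g ⬝ᵥ v ≠ 0) (n : ℕ) : ∀ z : ι → ℝ, (∀ g ∈ G, b g ≤ g ⬝ᵥ z) →
    G.card - (G.filter fun g => g ⬝ᵥ z = b g).card ≤ n →
    ∃ z : ι → ℝ, (∀ g ∈ G, b g ≤ g ⬝ᵥ z) ∧ ∀ v : ι → ℝ, (∀ g ∈ G, g ⬝ᵥ z = b g → g ⬝ᵥ v = 0) → v = 0 := by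
  induction n with
  | zero =>
    intro z hz hn
    refine ⟨z, hz, fun v hv => ?_⟩
    by_contra hv0
    obtain ⟨g, hg, hgv⟩ := hG v hv0
    have h1 : (G.filter fun g => g ⬝ᵥ z = b g) = G := by
      apply Finset.eq_of_subset_of_card_le (Finset.filter_subset _ _)
      omega
    have h2 : g ∈ G.filter fun g => g ⬝ᵥ z = b g := by rw [h1]; exact hg
    exact hgv (hv g hg (Finset.mem_filter.1 h2).2)
  | succ n ih =>
    intro z hz hn
    by_cases hs : ∀ v : ι → ℝ, (∀ g ∈ G, g ⬝ᵥ z = b g → g ⬝ᵥ v = 0) → v = 0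
    · exact ⟨z, hz, hs⟩
    push Not at hs
    obtain ⟨v, hv, hv0⟩ := hs
    obtain ⟨w, hw, g0, hg0, hgw⟩ : ∃ w : ι → ℝ, (∀ g ∈ G, g ⬝ᵥ z = b g → g ⬝ᵥ w = 0) ∧
        ∃ g ∈ G, g ⬝ᵥ w < 0 := by
      obtain ⟨g, hg, hgv⟩ := hG v hv0
      rcases lt_or_gt_of_ne hgv with h | h
      · exact ⟨v, hv, g, hg, h⟩
      · refine ⟨-v, fun g hg h => ?_, g, hg, ?_⟩
        · rw [dotProduct_neg, hv g hg h, neg_zero]
        · rw [dotProduct_neg]
          linarith
    have hne : (G.filter fun g => g ⬝ᵥ w < 0).Nonempty := ⟨g0, Finset.mem_filter.2 ⟨hg0, hgw⟩⟩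
    obtain ⟨g1, hg1, hmin⟩ := Finset.exists_min_image _ (fun g => (g ⬝ᵥ z - b g) / (-(g ⬝ᵥ w))) hne
    obtain ⟨hg1G, hg1w⟩ := Finset.mem_filter.1 hg1
    set t : ℝ := (g1 ⬝ᵥ z - b g1) / (-(g1 ⬝ᵥ w)) with ht
    have ht0 : 0 ≤ t := div_nonneg (by linarith [hz g1 hg1G]) (by linarith)
    have hd : ∀ g : ι → ℝ, g ⬝ᵥ (z + t • w) = g ⬝ᵥ z + t * (g ⬝ᵥ w) := by
      intro g
      rw [dotProduct_add, dotProduct_smul, smul_eq_mul]
    refine ih (z + t • w) (fun g hg => ?_) ?_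
    · rw [hd]
      by_cases h : g ⬝ᵥ w < 0
      · have h1 : t ≤ (g ⬝ᵥ z - b g) / (-(g ⬝ᵥ w)) := hmin g (Finset.mem_filter.2 ⟨hg, h⟩)
        rw [le_div_iff₀ (by linarith)] at h1
        linarith
      · have h1 : 0 ≤ t * (g ⬝ᵥ w) := mul_nonneg ht0 (not_lt.1 h)
        linarith [hz g hg]
    · have hsub : (G.filter fun g => g ⬝ᵥ z = b g) ⊂ G.filter fun g => g ⬝ᵥ (z + t • w) = b g := by
        rw [Finset.ssubset_iff_of_subset]
        · refine ⟨g1, Finset.mem_filter.2 ⟨hg1G, ?_⟩, fun h => ?_⟩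
          · rw [hd]
            have h1 : t * (-(g1 ⬝ᵥ w)) = g1 ⬝ᵥ z - b g1 := by
              rw [ht]
              exact div_mul_cancel₀ _ (by linarith)
            linarith
          · have := hw g1 hg1G (Finset.mem_filter.1 h).2
            linarith
        · intro g hg
          obtain ⟨hg, h⟩ := Finset.mem_filter.1 hg
          refine Finset.mem_filter.2 ⟨hg, ?_⟩
          rw [hd, hw g hg h, mul_zero, add_zero, h]
      have h1 := Finset.card_lt_card hsub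
      have h2 := Finset.card_le_card (Finset.filter_subset (fun g => g ⬝ᵥ (z + t • w) = b g) G)
      omega

/-- a vertex and an invertible matrix of tight forms -/
theorem vertex {ι : Type} [Fintype ι] [DecidableEq ι] (G : Finset (ι → ℝ)) (b : (ι → ℝ) → ℝ)
    (hG : ∀ v : ι → ℝ, v ≠ 0 → ∃ g ∈ G, g ⬝ᵥ v ≠ 0) (hz : ∃ z : ι → ℝ, ∀ g ∈ G, b g ≤ g ⬝ᵥ z) :
    ∃ (z : ι → ℝ) (M : Matrix ι ι ℝ), (∀ g ∈ G, b g ≤ g ⬝ᵥ z) ∧ M.det ≠ 0 ∧
      ∀ i, M i ∈ G ∧ M i ⬝ᵥ z = b (M i) := by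
  obtain ⟨z0, hz0⟩ := hz
  obtain ⟨z, hz, hs⟩ := vertex_aux G b hG _ z0 hz0 le_rfl
  set S : Set (ι → ℝ) := {g | g ∈ G ∧ g ⬝ᵥ z = b g} with hS
  have hspan : ⊤ ≤ Submodule.span ℝ S := by
    by_contra hcon
    have hlt : Submodule.span ℝ S < ⊤ := lt_of_le_of_ne le_top fun h => hcon h.ge
    obtain ⟨f, hf0, hf⟩ := Submodule.exists_le_ker_of_lt_top _ hlt
    have hfv : ∀ g : ι → ℝ, f g = g ⬝ᵥ fun i => f (fun j => if i = j then 1 else 0) := by
      intro g
      rw [LinearMap.pi_apply_eq_sum_univ f g]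
      rfl
    apply hf0
    have h0 : (fun i => f (fun j => if i = j then 1 else 0)) = (0 : ι → ℝ) := by
      apply hs
      intro g hg hgb
      rw [← hfv]
      exact hf (Submodule.subset_span ⟨hg, hgb⟩)
    refine LinearMap.ext fun g => ?_
    rw [hfv g, h0, dotProduct_zero, LinearMap.zero_apply]
  have hB : Set.range (Module.Basis.ofSpan hspan) ⊆ S := Module.Basis.ofSpan_subset hspan
  have e := (Module.Basis.ofSpan hspan).indexEquiv (Pi.basisFun ℝ ι)
  refine ⟨z, fun i => Module.Basis.ofSpan hspan (e.symm i), hz, ?_, fun i => hB ⟨_, rfl⟩⟩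
  have h1 : LinearIndependent ℝ (fun i => Module.Basis.ofSpan hspan (e.symm i)) :=
    (Module.Basis.ofSpan hspan).linearIndependent.comp _ e.symm.injective
  have h2 : IsUnit (Matrix.of fun i => Module.Basis.ofSpan hspan (e.symm i)) :=
    Matrix.linearIndependent_rows_iff_isUnit.1 h1
  exact ((Matrix.isUnit_iff_isUnit_det _).1 h2).ne_zero

theorem t_small : S_small := by
  classical
  intro ι _ C F hF x
  -- casts
  let cs : (ι → ℤ) → (ι → ℝ) := fun g j => (g j : ℝ)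
  have hcs : ∀ g j, cs g j = (g j : ℝ) := fun _ _ => rfl
  have hneg : ∀ g, cs (-g) = -cs g := by
    intro g
    funext j
    rw [hcs, Pi.neg_apply, Pi.neg_apply, hcs]
    push_cast
    rfl
  -- all forms
  let E : Finset (ι → ℤ) := F ∪ Finset.univ.image (fun j => Pi.single j 1)
  let G1 : Finset (ι → ℤ) := (E ∪ E.image fun g => -g).filter fun g => 0 ≤ cs g ⬝ᵥ x
  have hE : ∀ g ∈ E, ∀ j, |g j| ≤ ((C + 1 : ℕ) : ℤ) := by
    intro g hg j
    rcases Finset.mem_union.1 hg with h | h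
    · have := hF g h j
      push_cast
      linarith
    · obtain ⟨i, -, rfl⟩ := Finset.mem_image.1 h
      rw [Pi.single_apply]
      split_ifs
      · rw [abs_one]
        push_cast
        omega
      · rw [abs_zero]
        positivity
  have hG1 : ∀ g ∈ G1, ∀ j, |g j| ≤ ((C + 1 : ℕ) : ℤ) := by
    intro g hg j
    rcases Finset.mem_union.1 (Finset.mem_filter.1 hg).1 with h | h
    · exact hE g h j
    · obtain ⟨g', h', rfl⟩ := Finset.mem_image.1 h
      rw [Pi.neg_apply, abs_neg]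
      exact hE g' h' j
  have hcase : ∀ g ∈ E, g ∈ G1 ∨ -g ∈ G1 := by
    intro g hg
    rcases le_total 0 (cs g ⬝ᵥ x) with h | h
    · exact Or.inl (Finset.mem_filter.2 ⟨Finset.mem_union_left _ hg, h⟩)
    · refine Or.inr (Finset.mem_filter.2 ⟨Finset.mem_union_right _ (Finset.mem_image_of_mem _ hg), ?_⟩)
      rw [hneg, neg_dotProduct]
      linarith
  have hzero : ∀ g ∈ G1, cs g ⬝ᵥ x = 0 → -g ∈ G1 := by
    intro g hg h0
    obtain ⟨h1, -⟩ := Finset.mem_filter.1 hg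
    refine Finset.mem_filter.2 ⟨?_, ?_⟩
    · rcases Finset.mem_union.1 h1 with h | h
      · exact Finset.mem_union_right _ (Finset.mem_image_of_mem _ h)
      · obtain ⟨g', h', rfl⟩ := Finset.mem_image.1 h
        rw [neg_neg]
        exact Finset.mem_union_left _ h'
    · rw [hneg, neg_dotProduct, h0, neg_zero]
  -- the bounds
  let b : (ι → ℝ) → ℝ := fun g => if g ⬝ᵥ x = 0 then 0 else 1
  obtain ⟨z, M, hz, hM, hMi⟩ := vertex (G1.image cs) b (by
    intro v hv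
    obtain ⟨j, hj⟩ : ∃ j, v j ≠ 0 := by
      by_contra hcon
      push Not at hcon
      exact hv (funext hcon)
    have h1 : cs (Pi.single j 1) ⬝ᵥ v = v j := by
      have : cs (Pi.single j 1) = Pi.single j (1 : ℝ) := by
        funext i
        rw [hcs, Pi.single_apply, Pi.single_apply]
        split_ifs <;> simp
      rw [this, single_dotProduct, one_mul]
    rcases hcase (Pi.single j 1) (Finset.mem_union_right _ (Finset.mem_image_of_mem _ (Finset.mem_univ j))) with h | h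
    · exact ⟨_, Finset.mem_image_of_mem _ h, by rw [h1]; exact hj⟩
    · refine ⟨_, Finset.mem_image_of_mem _ h, ?_⟩
      rw [hneg, neg_dotProduct, h1]
      exact neg_ne_zero.2 hj) (by
    -- scale `x`
    obtain ⟨l, hl0, hl⟩ : ∃ l : ℝ, 0 ≤ l ∧ ∀ g ∈ G1, 0 < cs g ⬝ᵥ x → 1 ≤ l * (cs g ⬝ᵥ x) := by
      refine ⟨∑ g ∈ G1.filter (fun g => 0 < cs g ⬝ᵥ x), (cs g ⬝ᵥ x)⁻¹, ?_, ?_⟩
      · exact Finset.sum_nonneg fun g hg => (inv_pos.2 (Finset.mem_filter.1 hg).2).le
      · intro g hg h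
        have h1 : (cs g ⬝ᵥ x)⁻¹ ≤ ∑ g ∈ G1.filter (fun g => 0 < cs g ⬝ᵥ x), (cs g ⬝ᵥ x)⁻¹ :=
          Finset.single_le_sum (f := fun g => (cs g ⬝ᵥ x)⁻¹)
            (fun g hg => (inv_pos.2 (Finset.mem_filter.1 hg).2).le) (Finset.mem_filter.2 ⟨hg, h⟩)
        calc (1 : ℝ) = (cs g ⬝ᵥ x)⁻¹ * (cs g ⬝ᵥ x) := (inv_mul_cancel₀ h.ne').symm
          _ ≤ _ := mul_le_mul_of_nonneg_right h1 h.le
    refine ⟨l • x, fun g' hg' => ?_⟩
    obtain ⟨g, hg, rfl⟩ := Finset.mem_image.1 hg'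
    rw [dotProduct_smul, smul_eq_mul]
    show (if cs g ⬝ᵥ x = 0 then (0 : ℝ) else 1) ≤ _
    have h0 := (Finset.mem_filter.1 hg).2
    split_ifs with h
    · rw [h, mul_zero]
    · exact hl g hg (lt_of_le_of_ne h0 (Ne.symm h)))
  -- signs at the vertex
  have hzp : ∀ g ∈ G1, 0 < cs g ⬝ᵥ x → 1 ≤ cs g ⬝ᵥ z := by
    intro g hg h
    have h1 : (if cs g ⬝ᵥ x = 0 then (0 : ℝ) else 1) ≤ cs g ⬝ᵥ z := hz _ (Finset.mem_image_of_mem _ hg)
    rwa [if_neg h.ne'] at h1
  have hz0 : ∀ g ∈ G1, cs g ⬝ᵥ x = 0 → cs g ⬝ᵥ z = 0 := by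
    intro g hg h
    have h1 : (if cs g ⬝ᵥ x = 0 then (0 : ℝ) else 1) ≤ cs g ⬝ᵥ z := hz _ (Finset.mem_image_of_mem _ hg)
    have h2 : (if cs (-g) ⬝ᵥ x = 0 then (0 : ℝ) else 1) ≤ cs (-g) ⬝ᵥ z :=
      hz _ (Finset.mem_image_of_mem _ (hzero g hg h))
    rw [if_pos h] at h1
    rw [hneg, neg_dotProduct, neg_dotProduct, h, neg_zero, if_pos rfl] at h2
    linarith
  have hsgn : ∀ g ∈ E, SignType.sign (cs g ⬝ᵥ z) = SignType.sign (cs g ⬝ᵥ x) := by
    intro g hg
    have key : ∀ g ∈ G1, SignType.sign (cs g ⬝ᵥ z) = SignType.sign (cs g ⬝ᵥ x) := by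
      intro g hg
      rcases (Finset.mem_filter.1 hg).2.eq_or_lt with h | h
      · rw [hz0 g hg h.symm, ← h]
      · rw [sign_pos h, sign_pos (lt_of_lt_of_le one_pos (hzp g hg h))]
    rcases hcase g hg with h | h
    · exact key g h
    · have h1 := key (-g) h
      rw [hneg, neg_dotProduct, neg_dotProduct, Left.sign_neg, Left.sign_neg] at h1
      exact neg_injective h1
  -- the integral matrix
  have hch : ∀ i, ∃ g ∈ G1, cs g = M i := fun i => Finset.mem_image.1 (hMi i).1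
  choose A hA hAM using hch
  let A' : Matrix ι ι ℤ := Matrix.of A
  let bz : ι → ℤ := fun i => if cs (A i) ⬝ᵥ x = 0 then 0 else 1
  have hcast : A'.map (Int.castRingHom ℝ) = M := by
    ext i j
    rw [← hAM i]
    rfl
  have hdet : (Int.castRingHom ℝ) A'.det = M.det := by
    rw [RingHom.map_det, RingHom.mapMatrix_apply, hcast]
  have hdet0 : A'.det ≠ 0 := by
    intro h
    rw [h, map_zero] at hdet
    exact hM hdet.symm
  have hMz : M *ᵥ z = fun i => (bz i : ℝ) := by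
    funext i
    show M i ⬝ᵥ z = _
    rw [(hMi i).2]
    show (if M i ⬝ᵥ x = 0 then (0 : ℝ) else 1) = ((if cs (A i) ⬝ᵥ x = 0 then 0 else 1 : ℤ) : ℝ)
    rw [hAM i]
    split_ifs <;> simp
  let y0 : ι → ℤ := Matrix.cramer A' bz
  have hy0 : ∀ j, (y0 j : ℝ) = M.det * z j := by
    intro j
    have h1 : (fun j => (y0 j : ℝ)) = M.adjugate *ᵥ (M *ᵥ z) := by
      rw [hMz]
      funext j
      show (Int.castRingHom ℝ) (Matrix.cramer A' bz j) = _
      rw [Matrix.cramer_eq_adjugate_mulVec]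
      rw [← hcast]
      rw [← RingHom.mapMatrix_apply, ← RingHom.map_adjugate, RingHom.mapMatrix_apply]
      rw [RingHom.map_mulVec]
      rfl
    have h2 := congrFun h1 j
    rw [Matrix.mulVec_mulVec, Matrix.adjugate_mul, Matrix.smul_mulVec, Matrix.one_mulVec] at h2
    exact h2
  have hb0 : ∀ j, |y0 j| ≤ (((Fintype.card ι).factorial * (C + 1) ^ Fintype.card ι : ℕ) : ℤ) := by
    intro j
    have h1 : y0 j = (A'.updateCol j bz).det := Matrix.cramer_apply _ _ _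
    rw [h1]
    have h2 := Matrix.det_le (A := A'.updateCol j bz) (abv := AbsoluteValue.abs) (x := ((C + 1 : ℕ) : ℤ)) (by
      intro i k
      rw [AbsoluteValue.abs_apply, Matrix.updateCol_apply]
      split_ifs with h
      · show |(if cs (A i) ⬝ᵥ x = 0 then (0 : ℤ) else 1)| ≤ _
        split_ifs
        · rw [abs_zero]
          positivity
        · rw [abs_one]
          push_cast
          omega
      · exact hG1 (A i) (hA i) k)
    rw [AbsoluteValue.abs_apply] at h2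
    refine h2.trans (le_of_eq ?_)
    push_cast
    rw [nsmul_eq_mul]
  -- the sign of the determinant
  obtain ⟨ε, hε, hε'⟩ : ∃ ε : ℤ, (ε = 1 ∨ ε = -1) ∧ 0 < (ε : ℝ) * M.det := by
    rcases lt_or_gt_of_ne hM with h | h
    · exact ⟨-1, Or.inr rfl, by push_cast; linarith⟩
    · exact ⟨1, Or.inl rfl, by push_cast; linarith⟩
  have hy : ∀ g ∈ E, SignType.sign (∑ j, g j * (ε * y0 j)) = SignType.sign (cs g ⬝ᵥ x) := by
    intro g hg
    have h1 : ((∑ j, g j * (ε * y0 j) : ℤ) : ℝ) = (ε * M.det) * (cs g ⬝ᵥ z) := by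
      push_cast
      rw [dotProduct, Finset.mul_sum]
      refine Finset.sum_congr rfl fun j _ => ?_
      rw [hy0 j, hcs]
      ring
    have h2 : SignType.sign ((∑ j, g j * (ε * y0 j) : ℤ) : ℝ) = SignType.sign (∑ j, g j * (ε * y0 j)) := by
      rcases lt_trichotomy (∑ j, g j * (ε * y0 j)) 0 with h | h | h
      · rw [sign_neg h, sign_neg (by exact_mod_cast h)]
      · rw [h]
        simp
      · rw [sign_pos h, sign_pos (by exact_mod_cast h)]
    rw [← h2, h1, sign_mul, sign_pos hε', one_mul]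
    exact hsgn g hg
  refine ⟨fun j => ε * y0 j, fun j => ?_, fun j => ?_, fun f hf => ?_⟩
  · show |ε * y0 j| ≤ _
    rcases hε with h | h
    · rw [h, one_mul]
      exact hb0 j
    · rw [h, neg_one_mul, abs_neg]
      exact hb0 j
  · have h1 := hy (Pi.single j 1) (Finset.mem_union_right _ (Finset.mem_image_of_mem _ (Finset.mem_univ j)))
    have h2 : ∑ i, (Pi.single j 1 : ι → ℤ) i * (ε * y0 i) = ε * y0 j := by
      rw [Finset.sum_eq_single j]
      · rw [Pi.single_eq_same, one_mul]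
      · intro i _ hi
        rw [Pi.single_eq_of_ne hi, zero_mul]
      · intro h
        exact absurd (Finset.mem_univ j) h
    have h3 : cs (Pi.single j 1) ⬝ᵥ x = x j := by
      have : cs (Pi.single j 1) = Pi.single j (1 : ℝ) := by
        funext i
        rw [hcs, Pi.single_apply, Pi.single_apply]
        split_ifs <;> simp
      rw [this, single_dotProduct, one_mul]
    rw [h2, h3] at h1
    exact h1
  · exact hy f (Finset.mem_union_left _ hf)

end Pool.Agent.H268.PM
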